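import Pool.Agent.MP_0ac583_co.Defs

/-! Basic tools: out-neighbourhoods, Bonferroni, a lower bound for thresholds. -/

namespace Pool.Agent.MP_0ac583_co

open Finset

open Classical in
/-- Out-neighbourhood as a finset. -/
noncomputable def outN {V : Type} [Fintype V] (D : Digraph V) (v : V) : Finset V :=
  univ.filter fun w => D.Adj v w

@[simp] lemma mem_outN {V : Type} [Fintype V] {D : Digraph V} {v w : V} :
    w ∈ outN D v ↔ D.Adj v w := by simp [outN]

lemma ncard_eq_outN {V : Type} [Fintype V] (D : Digraph V) (v : V) :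
    {w | D.Adj v w}.ncard = (outN D v).card := by
  rw [← Set.ncard_coe_finset]; congr 1; ext w; simp

lemma Admissible.deg {V W : Type} [Fintype V] {H : Digraph W} {d : ℝ} {D : Digraph V}
    (h : Admissible H d D) (v : V) : d * (Fintype.card V : ℝ) ≤ (outN D v).card := by
  rw [← ncard_eq_outN]; exact h.2.2 v

lemma bonferroni {V ι : Type} [DecidableEq V] [DecidableEq ι] (N : ι → Finset V) (r : ℝ) (K : ℕ)
    (hr : ∀ v, r ≤ (N v).card) (S : Finset ι)
    (hS : ∀ u ∈ S, ∀ v ∈ S, u ≠ v → (N u ∩ N v).card ≤ K) :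
    S.card * r ≤ (S.biUnion N).card + (S.card : ℝ) ^ 2 * K := by
  induction S using Finset.induction_on with
  | empty => simp
  | insert a S ha ih =>
    have ih' := ih fun u hu v hv => hS u (mem_insert_of_mem hu) v (mem_insert_of_mem hv)
    have h1 : (N a ∩ S.biUnion N).card ≤ S.card * K := by
      rw [inter_biUnion]
      refine card_biUnion_le_card_mul _ _ _ fun v hv => ?_
      exact hS a (mem_insert_self _ _) v (mem_insert_of_mem hv) (fun e => ha (e ▸ hv))
    have h2 := card_union_add_card_inter (N a) (S.biUnion N)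
    rw [biUnion_insert, card_insert_of_notMem ha]
    have h1' : ((N a ∩ S.biUnion N).card : ℝ) ≤ S.card * K := by exact_mod_cast h1
    have h2' : ((N a ∪ S.biUnion N).card : ℝ) + (N a ∩ S.biUnion N).card =
        (N a).card + (S.biUnion N).card := by exact_mod_cast h2
    have h3 := hr a
    have hK : (0 : ℝ) ≤ K := Nat.cast_nonneg _
    have hc : (0 : ℝ) ≤ S.card := Nat.cast_nonneg _
    push_cast
    nlinarith [mul_nonneg hc hK]

/-- Families with few common out-neighbours are small when the digraph is large. -/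
lemma small_family {d : ℝ} (hd : 0 < d) (K : ℕ) : ∃ M n₀ : ℕ, ∀ (V : Type) [Fintype V]
    [DecidableEq V] (D : Digraph V), (∀ v, d * (Fintype.card V : ℝ) ≤ (outN D v).card) →
    n₀ < Fintype.card V → ∀ S : Finset V,
    (∀ u ∈ S, ∀ v ∈ S, u ≠ v → (outN D u ∩ outN D v).card ≤ K) → S.card < M := by
  refine ⟨⌈2 / d⌉₊, ⌈2 / d⌉₊ ^ 2 * K, fun V _ _ D hD hn S hS => ?_⟩
  by_contra hcon
  push Not at hcon
  obtain ⟨T, hT, hTc⟩ := exists_subset_card_eq hcon
  have h := bonferroni (outN D) _ K hD T fun u hu v hv => hS u (hT hu) v (hT hv)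
  have h1 : ((T.biUnion (outN D)).card : ℝ) ≤ Fintype.card V := by
    exact_mod_cast card_le_univ _
  have h2 : 2 / d ≤ (T.card : ℝ) := by rw [hTc]; exact Nat.le_ceil _
  rw [div_le_iff₀ hd] at h2
  rw [← hTc] at hn
  have hn' : (T.card : ℝ) ^ 2 * K < Fintype.card V := by exact_mod_cast hn
  have hV : (0 : ℝ) ≤ Fintype.card V := Nat.cast_nonneg _
  nlinarith [mul_le_mul_of_nonneg_right h2 hV]

/-- A transitive tournament on `s` vertices feeding a blow-up of the directed `m`-cycle. -/
def feeder (s m N : ℕ) : Digraph (Fin s ⊕ ZMod m × Fin N) where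
  Adj x y := match x, y with
    | Sum.inl i, Sum.inl j => i < j
    | Sum.inl _, Sum.inr y => y.1 = 0
    | Sum.inr _, Sum.inl _ => False
    | Sum.inr x, Sum.inr y => y.1 = x.1 + 1

lemma feeder_no_cycle {s m N L : ℕ} (hL : 0 < L) (hm : ¬ m ∣ L)
    (c : ℕ → Fin s ⊕ ZMod m × Fin N) (hc : ∀ i < L, (feeder s m N).Adj (c i) (c (i + 1)))
    (hp : c L = c 0) : False := by
  let lev : Fin s ⊕ ZMod m × Fin N → ℕ := fun x => match x with
    | Sum.inl i => i.val
    | Sum.inr _ => s
  have hstep : ∀ x y, (feeder s m N).Adj x y → lev x < lev y ∨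
      ∃ a b, x = Sum.inr a ∧ y = Sum.inr b ∧ b.1 = a.1 + 1 := by
    rintro (i | a) (j | b) h
    · exact Or.inl h
    · exact Or.inl i.2
    · exact h.elim
    · exact Or.inr ⟨a, b, rfl, rfl, h⟩
  have key : ∀ i ≤ L, 0 < i → lev (c 0) < lev (c i) ∨
      ∃ a b, c 0 = Sum.inr a ∧ c i = Sum.inr b ∧ b.1 = a.1 + (i : ℕ) := by
    intro i hi h0
    induction i with
    | zero => omega
    | succ i ih =>
      rcases Nat.eq_zero_or_pos i with rfl | hpos
      · simpa using hstep _ _ (hc 0 hL)
      · rcases ih (by omega) hpos with h | ⟨a, b, ha, hb, hab⟩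
        · rcases hstep _ _ (hc i (by omega)) with h' | ⟨a', b', ha', hb', -⟩
          · exact Or.inl (h.trans h')
          · left; rw [ha'] at h; rw [hb']; exact h
        · rcases hstep _ _ (hc i (by omega)) with h' | ⟨a', b', ha', hb', hab'⟩
          · left; rw [ha]; rw [hb] at h'; exact h'
          · right
            refine ⟨a, b', ha, hb', ?_⟩
            rw [hb] at ha'
            obtain rfl : b = a' := Sum.inr_injective ha'
            rw [hab', hab]; push_cast; ring
  rcases key L le_rfl hL with h | ⟨a, b, ha, hb, hab⟩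
  · rw [hp] at h; exact lt_irrefl _ h
  · rw [hp, ha] at hb
    obtain rfl : a = b := Sum.inr_injective hb
    have : ((L : ℕ) : ZMod m) = 0 := by linear_combination -hab
    exact hm ((ZMod.natCast_eq_zero_iff L m).1 this)

/-- If `H` has a closed directed walk whose length is not a multiple of `m`, its threshold is at
least `1 / m`. -/
lemma le_threshold {W : Type} (H : Digraph W) {m L : ℕ} (hm2 : 2 ≤ m) (hL : 0 < L) (hm : ¬ m ∣ L)
    (c : ℕ → W) (hc : ∀ i < L, H.Adj (c i) (c (i + 1))) (hp : c L = c 0) :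
    (((1 : ℝ) / m : ℝ) : EReal) ≤ threshold H := by
  unfold threshold
  refine le_iInf₂ fun d hd => ?_
  obtain ⟨C, hC⟩ := hd
  rw [EReal.coe_le_coe_iff]
  by_contra hcon
  push Not at hcon
  have : NeZero m := ⟨by omega⟩
  have : Fact (1 < m) := ⟨by omega⟩
  have hm0 : (0 : ℝ) < m := by exact_mod_cast (show 0 < m by omega)
  rw [lt_div_iff₀ hm0] at hcon
  obtain ⟨N, hN⟩ := exists_nat_ge (d * (C + 1) / (1 - d * m))
  rw [div_le_iff₀ (by linarith)] at hN
  have hadm : Admissible H d (feeder (C + 1) m N) := by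
    refine ⟨?_, ?_, ?_⟩
    · rintro (i | a) h
      · exact lt_irrefl _ h
      · have h' : a.1 = a.1 + 1 := h
        simp at h'
    · rintro ⟨f, -, hf⟩
      exact feeder_no_cycle hL hm (fun i => f (c i)) (fun i hi => hf _ _ (hc i hi)) (by rw [hp])
    · intro v
      have : ∃ z : ZMod m, ∀ j : Fin N, (feeder (C + 1) m N).Adj v (Sum.inr (z, j)) := by
        rcases v with i | a
        · exact ⟨0, fun j => rfl⟩
        · exact ⟨a.1 + 1, fun j => rfl⟩
      obtain ⟨z, hz⟩ := this
      have h1 : N ≤ {w | (feeder (C + 1) m N).Adj v w}.ncard := by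
        have := Set.ncard_le_ncard_of_injOn (s := (Set.univ : Set (Fin N)))
          (t := {w | (feeder (C + 1) m N).Adj v w}) (fun j => Sum.inr (z, j))
          (fun j _ => hz j) (fun i _ j _ h => by simpa using h)
        simpa [Set.ncard_univ] using this
      have h1' : (N : ℝ) ≤ {w | (feeder (C + 1) m N).Adj v w}.ncard := by exact_mod_cast h1
      simp only [Fintype.card_sum, Fintype.card_fin, Fintype.card_prod, ZMod.card]
      push_cast
      nlinarith
  obtain ⟨col⟩ := hC _ _ hadm
  have hinj : Function.Injective fun i : Fin (C + 1) => col (Sum.inl i) := by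
    intro i j hij
    by_contra hne
    refine col.valid (v := Sum.inl i) (w := Sum.inl j) ?_ hij
    refine ⟨by simpa using hne, ?_⟩
    rcases lt_or_gt_of_ne hne with h | h
    · exact Or.inl h
    · exact Or.inr h
  have := Fintype.card_le_of_injective _ hinj
  simp at this

end Pool.Agent.MP_0ac583_co
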