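import Mathlib

/-! Erdős's box theorem: a dense set of `m`-tuples contains a large combinatorial box. -/

namespace Pool.Agent.MP_0ac583_co

open Finset

/-- Greedy choice of many common elements in a dense family of large sets. -/
lemma greedy_common {V ι : Type} [Fintype V] [DecidableEq V] (N : ι → Finset V) (c : ℝ)
    (hc : 0 < c) (t : ℕ) (ht : (t : ℝ) < c * Fintype.card V) (G : Finset ι)
    (hG : ∀ w ∈ G, 2 * c * Fintype.card V ≤ (N w).card) (hne : G.Nonempty) :
    ∀ j ≤ t, ∃ T : Finset V, T.card = j ∧ ∃ G' ⊆ G, c ^ j * G.card ≤ G'.card ∧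
      ∀ w ∈ G', T ⊆ N w := by
  intro j hj
  induction j with
  | zero => exact ⟨∅, rfl, G, subset_rfl, by simp, fun _ _ => empty_subset _⟩
  | succ j ih =>
    obtain ⟨T, hT, G', hG', hcard, hsub⟩ := ih (by omega)
    have hGpos : (0 : ℝ) < G.card := by exact_mod_cast hne.card_pos
    have hG'pos : (0 : ℝ) < G'.card := lt_of_lt_of_le (by positivity) hcard
    have hjt : (j : ℝ) < t := by exact_mod_cast (show j < t by omega)
    have key : ∃ a ∈ univ \ T, c * G'.card ≤ (G'.filter fun w => a ∈ N w).card := by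
      by_contra hcon
      push Not at hcon
      have h1 : ∑ a ∈ univ \ T, ((G'.filter fun w => a ∈ N w).card : ℝ) ≤
          Fintype.card V * (c * G'.card) := by
        calc _ ≤ ∑ _a ∈ univ \ T, c * (G'.card : ℝ) := sum_le_sum fun a ha => (hcon a ha).le
          _ = (univ \ T).card * (c * G'.card) := by simp
          _ ≤ _ := by
            gcongr
            exact card_le_univ _
      have h2 : ∑ a ∈ univ \ T, ((G'.filter fun w => a ∈ N w).card : ℝ) =
          ∑ w ∈ G', ((N w \ T).card : ℝ) := by
        have : ∀ w, N w \ T = (univ \ T).filter fun a => a ∈ N w := by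
          intro w; ext a; simp [and_comm]
        simp only [this, card_filter]
        push_cast
        rw [sum_comm]
      have h3 : ∑ _w ∈ G', (2 * c * Fintype.card V - j) ≤ ∑ w ∈ G', ((N w \ T).card : ℝ) := by
        refine sum_le_sum fun w hw => ?_
        have h4 := hG w (hG' hw)
        have h5 : ((N w).card : ℝ) ≤ (N w \ T).card + T.card := by
          exact_mod_cast card_le_card_sdiff_add_card
        rw [hT] at h5
        linarith
      rw [sum_const, nsmul_eq_mul] at h3
      nlinarith
    obtain ⟨a, ha, hac⟩ := key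
    have haT : a ∉ T := (mem_sdiff.1 ha).2
    refine ⟨insert a T, by rw [card_insert_of_notMem haT, hT], G'.filter fun w => a ∈ N w,
      (filter_subset _ _).trans hG', ?_, fun w hw => ?_⟩
    · calc c ^ (j + 1) * G.card = c * (c ^ j * G.card) := by ring
        _ ≤ c * G'.card := by gcongr
        _ ≤ _ := hac
    · exact insert_subset (mem_filter.1 hw).2 (hsub w (mem_filter.1 hw).1)

theorem box (m t : ℕ) : ∀ c : ℝ, 0 < c → ∃ n₀ : ℕ, ∀ (V : Type) [Fintype V] [DecidableEq V],
    n₀ ≤ Fintype.card V → ∀ F : Finset (Fin m → V), c * (Fintype.card V : ℝ) ^ m ≤ F.card →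
    ∃ T : Fin m → Finset V, (∀ i, (T i).card = t) ∧ ∀ v, (∀ i, v i ∈ T i) → v ∈ F := by
  induction m with
  | zero =>
    intro c hc
    refine ⟨0, fun V _ _ _ F hF => ⟨Fin.elim0, fun i => i.elim0, fun v _ => ?_⟩⟩
    have : (0 : ℝ) < F.card := lt_of_lt_of_le (by simpa using hc) hF
    obtain ⟨w, hw⟩ := card_pos.1 (by exact_mod_cast this : 0 < F.card)
    rwa [Subsingleton.elim v w]
  | succ m ih =>
    intro c hc
    obtain ⟨n₁, h₁⟩ := ih ((c / 4) ^ t * (c / 2)) (by positivity)
    refine ⟨max n₁ (⌈4 * t / c⌉₊ + 1), fun V _ _ hn F hF => ?_⟩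
    have hn1 : n₁ ≤ Fintype.card V := (le_max_left _ _).trans hn
    have hn2 : ⌈4 * t / c⌉₊ + 1 ≤ Fintype.card V := (le_max_right _ _).trans hn
    have hn3 : 4 * t / c < Fintype.card V := by
      have : ((⌈4 * t / c⌉₊ + 1 : ℕ) : ℝ) ≤ Fintype.card V := by exact_mod_cast hn2
      push_cast at this
      linarith [Nat.le_ceil (4 * t / c)]
    rw [div_lt_iff₀ hc] at hn3
    have hpos : (0 : ℝ) < Fintype.card V := by exact_mod_cast (show 0 < Fintype.card V by omega)
    set n : ℝ := (Fintype.card V : ℝ) with hndef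
    let N : (Fin m → V) → Finset V := fun w => univ.filter fun a => Fin.cons a w ∈ F
    let G : Finset (Fin m → V) := univ.filter fun w => c / 2 * n ≤ (N w).card
    have h2 : F.card ≤ ∑ w, (N w).card := by
      rw [← card_sigma]
      refine card_le_card_of_injOn (fun v => ⟨Fin.tail v, v 0⟩) ?_ ?_
      · intro v hv
        simp only [coe_sigma, Set.mem_sigma_iff, N]
        simpa [Fin.cons_self_tail] using hv
      · intro v _ v' _ h
        simp only [Sigma.mk.injEq, heq_eq_eq] at h
        rw [← Fin.cons_self_tail v, ← Fin.cons_self_tail v', h.1, h.2]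
    have h3 : ∑ w, ((N w).card : ℝ) ≤ ∑ w : Fin m → V, ((if w ∈ G then n else 0) + c / 2 * n) := by
      refine sum_le_sum fun w _ => ?_
      split_ifs with h
      · have : ((N w).card : ℝ) ≤ n := by rw [hndef]; exact_mod_cast card_le_univ _
        have : 0 ≤ c / 2 * n := by positivity
        linarith
      · have : ¬ c / 2 * n ≤ (N w).card := fun h' => h (mem_filter.2 ⟨mem_univ _, h'⟩)
        linarith
    rw [sum_add_distrib, sum_ite_mem, univ_inter, sum_const, sum_const, card_univ,
      Fintype.card_fun, Fintype.card_fin, nsmul_eq_mul, nsmul_eq_mul] at h3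
    have h2' : (F.card : ℝ) ≤ ∑ w, ((N w).card : ℝ) := by exact_mod_cast h2
    have h4 : c / 2 * n ^ m ≤ G.card := by
      push_cast at h3
      rw [← hndef] at h3
      have : c / 2 * n ^ m * n ≤ G.card * n := by rw [pow_succ] at hF; nlinarith
      exact le_of_mul_le_mul_right this hpos
    have hGne : G.Nonempty := by
      rw [← card_pos]
      have : (0 : ℝ) < G.card := lt_of_lt_of_le (by positivity) h4
      exact_mod_cast this
    obtain ⟨T₀, hT₀, G', -, hG'c, hG'⟩ := greedy_common N (c / 4) (by positivity) t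
      (by linarith) G (fun w hw => by have := (mem_filter.1 hw).2; linarith) hGne t le_rfl
    obtain ⟨T, hT, hTF⟩ := h₁ V hn1 G' (by
      calc (c / 4) ^ t * (c / 2) * n ^ m = (c / 4) ^ t * (c / 2 * n ^ m) := by ring
        _ ≤ (c / 4) ^ t * G.card := by gcongr
        _ ≤ _ := hG'c)
    refine ⟨Fin.cons T₀ T, fun i => ?_, fun v hv => ?_⟩
    · refine Fin.cases ?_ (fun i => ?_) i
      · simpa using hT₀
      · simpa using hT i
    · have h5 : Fin.tail v ∈ G' := hTF _ fun i => by simpa [Fin.tail] using hv i.succ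
      have h6 := hG' _ h5 (show v 0 ∈ T₀ by simpa using hv 0)
      simpa [N, Fin.cons_self_tail] using h6

end Pool.Agent.MP_0ac583_co
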