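import Mathlib

/-! Orientations, `H`-free digraphs of large minimum out-degree, and the chromatic threshold. -/

namespace Pool.Agent.MP_0ac583_co

/-- `D` has a (not necessarily induced) subdigraph isomorphic to `H`. -/
def Contains {V W : Type} (D : Digraph V) (H : Digraph W) : Prop :=
  ∃ f : W → V, Function.Injective f ∧ ∀ a b, H.Adj a b → D.Adj (f a) (f b)

/-- `H'` arises from the simple graph `H` by giving each edge exactly one direction. -/
def IsOrientation {W : Type} (H' : Digraph W) (H : SimpleGraph W) : Prop :=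
  ∀ a b, (H.Adj a b ↔ H'.Adj a b ∨ H'.Adj b a) ∧ ¬ (H'.Adj a b ∧ H'.Adj b a)

/-- `D` is loopless, `H`-free, and has minimum out-degree at least `d * |D|`. -/
def Admissible {V W : Type} [Fintype V] (H : Digraph W) (d : ℝ) (D : Digraph V) : Prop :=
  (∀ v, ¬ D.Adj v v) ∧ ¬ Contains D H ∧
    ∀ v, d * (Fintype.card V : ℝ) ≤ ({w | D.Adj v w}.ncard : ℝ)

/-- The directed chromatic threshold, as an infimum in the extended reals. -/
noncomputable def threshold {W : Type} (H : Digraph W) : EReal :=
  ⨅ d ∈ {d : ℝ | ∃ C : ℕ, ∀ (V : Type) [Fintype V] (D : Digraph V),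
    Admissible H d D → D.toSimpleGraphInclusive.Colorable C}, (d : EReal)

end Pool.Agent.MP_0ac583_co
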