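import Pool.Agent.MP_0ac583_co.Defs

namespace Pool.Agent.MP_0ac583_co

/-- The chromatic profile, for digraphs with any number of vertices. -/
noncomputable def profileAll {W : Type} (H : Digraph W) (k : ℕ) : EReal :=
  ⨅ d ∈ {d : ℝ | ∀ (V : Type) [Fintype V] (D : Digraph V),
    Admissible H d D → D.toSimpleGraphInclusive.Colorable k}, (d : EReal)

end Pool.Agent.MP_0ac583_co
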