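import Pool.Agent.MP_0ac583_co.Basic
import Pool.Agent.MP_0ac583_co.Box
import Pool.Agent.MP_0ac583_co.DefsLarge

/-! A counterexample for the profile of large digraphs: two orientations of the 60-cycle and
`k = 2`. -/

namespace Pool.Agent.MP_0ac583_co

open Finset

/-- The directed 60-cycle. -/
def C1 : Digraph (Fin 60) where
  Adj a b := b = a + 1

/-- The 60-cycle with two arcs reversed. -/
def C2 : Digraph (Fin 60) where
  Adj a b := (a.val < 57 ∧ b.val = a.val + 1) ∨ (a = 58 ∧ b = 57) ∨ (a = 58 ∧ b = 59) ∨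
    (a = 0 ∧ b = 59)

instance : DecidableRel C1.Adj := fun a b => by unfold C1; infer_instance
instance : DecidableRel C2.Adj := fun a b => by unfold C2; infer_instance

lemma C1_orient : IsOrientation C1 (SimpleGraph.cycleGraph 60) := by
  unfold IsOrientation
  decide +kernel

lemma C2_orient : IsOrientation C2 (SimpleGraph.cycleGraph 60) := by
  unfold IsOrientation
  decide +kernel

lemma C1_threshold : (((1 : ℝ) / (7 : ℕ) : ℝ) : EReal) ≤ threshold C1 := by
  refine le_threshold C1 (m := 7) (L := 60) (by norm_num) (by norm_num) (by norm_num)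
    (fun i => Fin.ofNat 60 i) ?_ rfl
  decide +kernel

/-- Blow-up of the directed triangle. -/
def tri (N : ℕ) : Digraph (ZMod 3 × Fin N) where
  Adj x y := y.1 = x.1 + 1

lemma C2_profile : ((1 / 3 : ℝ) : EReal) ≤ profileLarge C2 2 := by
  unfold profileLarge
  refine le_iInf₂ fun d hd => ?_
  obtain ⟨n₀, hd⟩ := hd
  rw [EReal.coe_le_coe_iff]
  by_contra hcon
  push Not at hcon
  have hadm : Admissible C2 d (tri (n₀ + 1)) := by
    refine ⟨?_, ?_, ?_⟩
    · intro a h
      have h' : a.1 = a.1 + 1 := h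
      revert h'; generalize a.1 = z; revert z; decide
    · rintro ⟨f, -, hf⟩
      have key : ∀ i (hi : i < 58), (f ⟨i, by omega⟩).1 = (f 0).1 + (i : ℕ) := by
        intro i hi
        induction i with
        | zero => simp
        | succ i ih =>
          have h1 : (f ⟨i + 1, by omega⟩).1 = (f ⟨i, by omega⟩).1 + 1 :=
            hf ⟨i, by omega⟩ ⟨i + 1, by omega⟩ (Or.inl ⟨by show i < 57; omega, rfl⟩)
          rw [h1, ih (by omega)]; push_cast; ring
      have h1 : (f 57).1 = (f 0).1 + (57 : ℕ) := key 57 (by norm_num)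
      have h2 : (f 57).1 = (f 58).1 + 1 := hf 58 57 (by decide)
      have h3 : (f 59).1 = (f 58).1 + 1 := hf 58 59 (by decide)
      have h4 : (f 59).1 = (f 0).1 + 1 := hf 0 59 (by decide)
      have h5 : ((57 : ℕ) : ZMod 3) = 1 := by linear_combination h2 - h1 - h3 + h4
      revert h5; decide
    · intro v
      have h1 : n₀ + 1 ≤ {w | (tri (n₀ + 1)).Adj v w}.ncard := by
        have := Set.ncard_le_ncard_of_injOn (s := (Set.univ : Set (Fin (n₀ + 1))))
          (t := {w | (tri (n₀ + 1)).Adj v w}) (fun j => (v.1 + 1, j))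
          (fun j _ => rfl) (fun i _ j _ h => by simpa using h)
        simpa [Set.ncard_univ] using this
      have h1' : (n₀ + 1 : ℝ) ≤ {w | (tri (n₀ + 1)).Adj v w}.ncard := by exact_mod_cast h1
      simp only [Fintype.card_fin, Fintype.card_prod, ZMod.card]
      push_cast
      have : (0 : ℝ) ≤ n₀ := Nat.cast_nonneg _
      nlinarith
  obtain ⟨col⟩ := hd _ _ (by simp; omega) hadm
  have hinj : Function.Injective fun i : ZMod 3 => col (i, 0) := by
    intro i j hij
    by_contra hne
    refine col.valid (v := (i, 0)) (w := (j, 0)) ⟨by simpa using hne, ?_⟩ hij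
    have key : ∀ i j : ZMod 3, i ≠ j → j = i + 1 ∨ i = j + 1 := by decide
    exact key i j hne
  have := Fintype.card_le_of_injective _ hinj
  simp at this

/-- A relation without walks of length `p` has a strictly increasing level function below `p`. -/
lemma exists_level {V : Type} (R : V → V → Prop) (p : ℕ)
    (h : ¬ ∃ f : ℕ → V, ∀ i < p, R (f i) (f (i + 1))) :
    ∃ c : V → Fin p, ∀ u v, R u v → c u ≠ c v := by
  classical
  let E : V → ℕ → Prop := fun v k => ∃ f : ℕ → V, f k = v ∧ ∀ i < k, R (f i) (f (i + 1))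
  have hE : ∀ v, E v (Nat.findGreatest (E v) p) := fun v =>
    Nat.findGreatest_spec (P := E v) (Nat.zero_le p) ⟨fun _ => v, rfl, fun i hi => by omega⟩
  have hlt : ∀ v, Nat.findGreatest (E v) p < p := by
    intro v
    rcases (Nat.findGreatest_le (P := E v) p).lt_or_eq with h' | h'
    · exact h'
    · obtain ⟨f, -, hf⟩ := hE v
      rw [h'] at hf
      exact absurd ⟨f, hf⟩ h
  refine ⟨fun v => ⟨_, hlt v⟩, fun u v huv e => ?_⟩
  have e' : Nat.findGreatest (E u) p = Nat.findGreatest (E v) p := congrArg Fin.val e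
  obtain ⟨f, hf1, hf2⟩ := hE u
  have : E v (Nat.findGreatest (E u) p + 1) := by
    refine ⟨fun i => if i = Nat.findGreatest (E u) p + 1 then v else f i, by simp, fun i hi => ?_⟩
    rcases (Nat.lt_succ_iff.1 hi).lt_or_eq with h' | h'
    · simp only [if_neg (show i ≠ Nat.findGreatest (E u) p + 1 by omega),
        if_neg (show i + 1 ≠ Nat.findGreatest (E u) p + 1 by omega)]
      exact hf2 i h'
    · simp only [if_neg (show i ≠ Nat.findGreatest (E u) p + 1 by omega),
        if_pos (show i + 1 = Nat.findGreatest (E u) p + 1 by omega)]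
      rw [h', hf1]; exact huv
  have := Nat.le_findGreatest (hlt u) this
  omega

/-- A long path whose ends share many out-neighbours with an outside vertex gives `C2`. -/
lemma contains_C2 {V : Type} [Fintype V] [DecidableEq V] {D : Digraph V} (hl : ∀ v, ¬ D.Adj v v)
    (f : ℕ → V) (hf : ∀ i < 56, D.Adj (f i) (f (i + 1)))
    (hinj : ∀ i ≤ 56, ∀ j ≤ 56, f i = f j → i = j) (v : V) (hv : ∀ i ≤ 56, f i ≠ v)
    (h0 : 58 < (outN D (f 0) ∩ outN D v).card) (h1 : 58 < (outN D (f 56) ∩ outN D v).card) :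
    Contains D C2 := by
  have hP : ((range 57).image f).card ≤ 57 := card_image_le.trans (by simp)
  obtain ⟨w', hw1, hw2⟩ := exists_mem_notMem_of_card_lt_card (s := (range 57).image f)
    (t := outN D (f 56) ∩ outN D v) (by omega)
  obtain ⟨w, hw3, hw4⟩ := exists_mem_notMem_of_card_lt_card (s := insert w' ((range 57).image f))
    (t := outN D (f 0) ∩ outN D v) (by
      have := card_insert_le w' ((range 57).image f); omega)
  simp only [mem_inter, mem_outN] at hw1 hw3
  simp only [mem_insert, mem_image, mem_range, not_or, not_exists, not_and] at hw2 hw4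
  have n1 : w' ≠ v := fun e => hl v (e ▸ hw1.2)
  have n2 : w ≠ v := fun e => hl v (e ▸ hw3.2)
  let g : Fin 60 → V := fun i =>
    if i.val ≤ 56 then f i else if i.val = 57 then w' else if i.val = 58 then v else w
  have g1 : ∀ i : Fin 60, i.val ≤ 56 → g i = f i := fun i hi => if_pos hi
  have g57 : g 57 = w' := rfl
  have g58 : g 58 = v := rfl
  have g59 : g 59 = w := rfl
  have cases4 : ∀ i : Fin 60, i.val ≤ 56 ∨ i = 57 ∨ i = 58 ∨ i = 59 := by decide
  refine ⟨g, ?_, ?_⟩
  · intro i j hij
    rcases cases4 i with hi | rfl | rfl | rfl <;> rcases cases4 j with hj | rfl | rfl | rfl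
    · rw [g1 i hi, g1 j hj] at hij; exact Fin.ext (hinj _ hi _ hj hij)
    · rw [g1 i hi, g57] at hij; exact absurd hij (hw2 _ (by omega))
    · rw [g1 i hi, g58] at hij; exact absurd hij (hv _ hi)
    · rw [g1 i hi, g59] at hij; exact absurd hij (hw4.2 _ (by omega))
    · rw [g1 j hj, g57] at hij; exact absurd hij.symm (hw2 _ (by omega))
    · rfl
    · exact absurd hij n1
    · exact absurd hij.symm hw4.1
    · rw [g1 j hj, g58] at hij; exact absurd hij.symm (hv _ hj)
    · exact absurd hij.symm n1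
    · rfl
    · exact absurd hij.symm n2
    · rw [g1 j hj, g59] at hij; exact absurd hij.symm (hw4.2 _ (by omega))
    · exact absurd hij hw4.1
    · exact absurd hij n2
    · rfl
  · rintro a b (⟨ha, hb⟩ | ⟨rfl, rfl⟩ | ⟨rfl, rfl⟩ | ⟨rfl, rfl⟩)
    · rcases Nat.lt_or_ge a.val 56 with h | h
      · rw [g1 a (by omega), g1 b (by omega), hb]; exact hf _ h
      · obtain rfl : a = 56 := Fin.ext (by show a.val = 56; omega)
        obtain rfl : b = 57 := Fin.ext hb
        exact hw1.1
    · exact hw1.2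
    · exact hw3.2
    · exact hw3.1

lemma C2_threshold : threshold C2 ≤ ((1 / 8 : ℝ) : EReal) := by
  unfold threshold
  refine iInf₂_le (1 / 8 : ℝ) ?_
  obtain ⟨M, n₀, h⟩ := small_family (d := 1 / 8) (by norm_num) 58
  refine ⟨max n₀ (M + M * (56 * 56)), fun V _ D hD => ?_⟩
  classical
  rcases le_or_gt (Fintype.card V) n₀ with hn | hn
  · exact (SimpleGraph.colorable_of_fintype _).mono (hn.trans (le_max_left _ _))
  obtain ⟨S, hS, hmax⟩ := exists_max_image
    (univ.filter fun S : Finset V =>
      ∀ u ∈ S, ∀ v ∈ S, u ≠ v → (outN D u ∩ outN D v).card ≤ 58) card ⟨∅, by simp⟩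
  have hS' := (mem_filter.1 hS).2
  have hSM := h V D hD.deg hn S hS'
  have hcen : ∀ u, u ∉ S → ∃ v : S, 58 < (outN D u ∩ outN D v).card := by
    intro u hu
    by_contra hcon
    push Not at hcon
    have := hmax (insert u S) (mem_filter.2 ⟨mem_univ _, fun a ha b hb hab => by
      rcases mem_insert.1 ha with e1 | ha' <;> rcases mem_insert.1 hb with e2 | hb'
      · exact absurd (e1.trans e2.symm) hab
      · rw [e1]; exact hcon ⟨b, hb'⟩
      · rw [inter_comm, e2]; exact hcon ⟨a, ha'⟩
      · exact hS' a ha' b hb' hab⟩)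
    rw [card_insert_of_notMem hu] at this
    omega
  choose cen hcen using hcen
  let e : V → ℕ := fun v => (Fintype.equivFin V v).val
  have he : Function.Injective e := fun a b hab => (Fintype.equivFin V).injective (Fin.ext hab)
  have main : ∀ (r : ℕ → ℕ → Prop), (∀ a, ¬ r a a) → (∀ a b c, r a b → r b c → r a c) →
      ∃ c : V → Fin 56, ∀ u v, (∃ (hu : u ∉ S) (hv : v ∉ S), cen u hu = cen v hv ∧ D.Adj u v ∧
        r (e u) (e v)) → c u ≠ c v := by
    intro r hr ht
    apply exists_level
    rintro ⟨f, hf⟩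
    have hnot : ∀ i ≤ 56, f i ∉ S := by
      intro i hi
      rcases Nat.eq_zero_or_pos i with rfl | hpos
      · exact (hf 0 (by norm_num)).1
      · obtain ⟨j, rfl⟩ : ∃ j, i = j + 1 := ⟨i - 1, by omega⟩
        exact (hf j (by omega)).2.1
    have hsame : ∀ i (hi : i ≤ 56), cen (f i) (hnot i hi) = cen (f 0) (hnot 0 (by norm_num)) := by
      intro i hi
      induction i with
      | zero => rfl
      | succ i ih =>
        obtain ⟨_, _, h1, -⟩ := hf i (by omega)
        rw [← ih (by omega), h1]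
    have hmono : ∀ i j, i < j → j ≤ 56 → r (e (f i)) (e (f j)) := by
      intro i j hij hj
      induction j with
      | zero => omega
      | succ j ih =>
        obtain ⟨_, _, -, -, h1⟩ := hf j (by omega)
        rcases (Nat.lt_succ_iff.1 hij).lt_or_eq with h' | h'
        · exact ht _ _ _ (ih h' (by omega)) h1
        · rw [h']; exact h1
    refine hD.2.1 (contains_C2 hD.1 f (fun i hi => (hf i hi).2.2.2.1) ?_
      (cen (f 0) (hnot 0 (by norm_num))) ?_ (hcen _ _) ?_)
    · intro i hi j hj hij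
      rcases lt_trichotomy i j with h' | h' | h'
      · have := hmono i j h' hj; rw [hij] at this; exact absurd this (hr _)
      · exact h'
      · have := hmono j i h' hi; rw [hij] at this; exact absurd this (hr _)
    · intro i hi e'
      exact hnot i hi (e' ▸ (cen (f 0) (hnot 0 (by norm_num))).2)
    · rw [← hsame 56 le_rfl]; exact hcen _ _
  obtain ⟨c1, hc1⟩ := main (· < ·) (fun a => lt_irrefl a) (fun a b c => lt_trans)
  obtain ⟨c2, hc2⟩ := main (· > ·) (fun a => lt_irrefl a) (fun a b c => gt_trans)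
  let col : V → S ⊕ S × (Fin 56 × Fin 56) := fun u =>
    if hu : u ∈ S then Sum.inl ⟨u, hu⟩ else Sum.inr (cen u hu, c1 u, c2 u)
  have hcol : ∀ u v, D.Adj u v → col u ≠ col v := by
    intro u v huv hc
    have hne : u ≠ v := fun e' => hD.1 v (e' ▸ huv)
    by_cases hu : u ∈ S <;> by_cases hv : v ∈ S <;> simp only [col, hu, hv, dite_true, dite_false,
      Sum.inl.injEq, Subtype.mk.injEq, reduceCtorEq, Sum.inr.injEq, Prod.mk.injEq] at hc
    · exact hne hc
    · rcases lt_or_gt_of_ne (he.ne hne) with h' | h'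
      · exact hc1 u v ⟨hu, hv, hc.1, huv, h'⟩ hc.2.1
      · exact hc2 u v ⟨hu, hv, hc.1, huv, h'⟩ hc.2.2
  have C : D.toSimpleGraphInclusive.Coloring (S ⊕ S × (Fin 56 × Fin 56)) :=
    SimpleGraph.Coloring.mk col fun {u v} huv => huv.2.elim (hcol u v) fun h' => (hcol v u h').symm
  refine C.colorable.mono (le_trans ?_ (le_max_right _ _))
  simp only [Fintype.card_sum, Fintype.card_coe, Fintype.card_prod, Fintype.card_fin]
  have := hSM.le
  gcongr

/-- Sampling six vertices: many copies of some functional digraph on six points. -/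
lemma many_functional {V : Type} [Fintype V] [DecidableEq V] (D : Digraph V)
    [DecidableRel D.Adj] (hD : ∀ v, 8 / 25 * (Fintype.card V : ℝ) ≤ (outN D v).card) :
    ∃ f : Fin 6 → Fin 6, 1 / (10 * 6 ^ 6) * (Fintype.card V : ℝ) ^ 6 ≤
      (univ.filter fun v : Fin 6 → V => ∀ i, D.Adj (v i) (v (f i))).card := by
  set n : ℝ := (Fintype.card V : ℝ) with hn
  have hn0 : 0 ≤ n := Nat.cast_nonneg _
  let Bad : Fin 6 → Finset (Fin 6 → V) := fun i =>
    univ.biUnion fun a => Fintype.piFinset fun j => if j = i then {a} else (outN D a)ᶜ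
  have hBad : ∀ i, ((Bad i).card : ℝ) ≤ n * (17 / 25 * n) ^ 5 := by
    intro i
    have h1 : ((Bad i).card : ℝ) ≤ ∑ a : V, ((Fintype.piFinset fun j =>
        if j = i then {a} else (outN D a)ᶜ).card : ℝ) := by exact_mod_cast card_biUnion_le
    refine h1.trans ?_
    rw [hn, ← card_univ, ← nsmul_eq_mul]
    refine sum_le_card_nsmul _ _ _ fun a _ => ?_
    rw [Fintype.card_piFinset, Fin.prod_univ_succAbove _ i]
    simp only [if_true, card_singleton, one_mul, Fin.succAbove_ne, if_false, prod_const,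
      card_univ, Fintype.card_fin]
    push_cast
    have h2 : (((outN D a)ᶜ).card : ℝ) + (outN D a).card = Fintype.card V := by
      exact_mod_cast card_compl_add_card _
    have := hD a
    gcongr
    linarith
  have hcover : (univ : Finset (Fin 6 → V)) ⊆ univ.biUnion Bad ∪ univ.biUnion
      fun f : Fin 6 → Fin 6 => univ.filter fun v : Fin 6 → V => ∀ i, D.Adj (v i) (v (f i)) := by
    intro v _
    by_cases h : ∀ i, ∃ j, D.Adj (v i) (v j)
    · choose f hf using h
      exact mem_union_right _ (mem_biUnion.2 ⟨f, mem_univ _, mem_filter.2 ⟨mem_univ _, hf⟩⟩)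
    · push Not at h
      obtain ⟨i, hi⟩ := h
      refine mem_union_left _ (mem_biUnion.2 ⟨i, mem_univ _, mem_biUnion.2 ⟨v i, mem_univ _, ?_⟩⟩)
      rw [Fintype.mem_piFinset]
      intro j
      split_ifs with hj
      · simp [hj]
      · simpa using hi j
  by_contra hcon
  push Not at hcon
  have h1 := (card_le_card hcover).trans (card_union_le _ _)
  rw [card_univ, Fintype.card_fun, Fintype.card_fin] at h1
  have h2 : ((univ.biUnion Bad).card : ℝ) ≤ ∑ i, ((Bad i).card : ℝ) := by
    exact_mod_cast card_biUnion_le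
  have h3 : ∑ i, ((Bad i).card : ℝ) ≤ 6 * (n * (17 / 25 * n) ^ 5) := by
    have := sum_le_card_nsmul univ (fun i => ((Bad i).card : ℝ)) _ fun i _ => hBad i
    simpa using this
  have h4 : ((univ.biUnion fun f : Fin 6 → Fin 6 =>
      univ.filter fun v : Fin 6 → V => ∀ i, D.Adj (v i) (v (f i))).card : ℝ) ≤
      ∑ f : Fin 6 → Fin 6,
        ((univ.filter fun v : Fin 6 → V => ∀ i, D.Adj (v i) (v (f i))).card : ℝ) := by
    exact_mod_cast card_biUnion_le
  have h5 : ∑ f : Fin 6 → Fin 6,
      ((univ.filter fun v : Fin 6 → V => ∀ i, D.Adj (v i) (v (f i))).card : ℝ) <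
      ∑ _f : Fin 6 → Fin 6, 1 / (10 * 6 ^ 6) * n ^ 6 :=
    sum_lt_sum_of_nonempty univ_nonempty fun f _ => hcon f
  rw [sum_const, card_univ, Fintype.card_fun, Fintype.card_fin, nsmul_eq_mul] at h5
  have h1' : n ^ 6 ≤ ((univ.biUnion Bad).card : ℝ) + ((univ.biUnion fun f : Fin 6 → Fin 6 =>
      univ.filter fun v : Fin 6 → V => ∀ i, D.Adj (v i) (v (f i))).card : ℝ) := by
    rw [hn]; exact_mod_cast h1
  have h6 : 0 ≤ n ^ 6 := by positivity
  push_cast at h5
  nlinarith

lemma exists_periodic (f : Fin 6 → Fin 6) : ∃ x, f^[60] x = x := by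
  obtain ⟨a, b, hab, h⟩ := Fintype.exists_ne_map_eq_of_card_lt
    (fun i : Fin 7 => f^[i.val] 0) (by simp)
  wlog hlt : a < b generalizing a b
  · exact this b a hab.symm h.symm (lt_of_le_of_ne (not_lt.1 hlt) hab.symm)
  refine ⟨f^[a.val] 0, ?_⟩
  have hp : Function.IsPeriodicPt f (b.val - a.val) (f^[a.val] 0) := by
    unfold Function.IsPeriodicPt Function.IsFixedPt
    rw [← Function.iterate_add_apply, Nat.sub_add_cancel hlt.le]
    exact h.symm
  refine hp.trans_dvd ?_
  have h1 : 0 < b.val - a.val := Nat.sub_pos_of_lt hlt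
  have h2 : b.val - a.val ≤ 6 := by have := b.2; omega
  generalize b.val - a.val = k at h1 h2
  interval_cases k <;> decide

lemma C1_profile : profileLarge C1 2 ≤ ((8 / 25 : ℝ) : EReal) := by
  unfold profileLarge
  refine iInf₂_le (8 / 25 : ℝ) ?_
  obtain ⟨n₀, h⟩ := box 6 60 (1 / (10 * 6 ^ 6)) (by positivity)
  refine ⟨n₀, fun V _ D hn hD => absurd ?_ hD.2.1⟩
  classical
  obtain ⟨f, hf⟩ := many_functional D hD.deg
  obtain ⟨T, hT, hTF⟩ := h V hn _ hf
  have hne : ∀ i, (T i).Nonempty := fun i => card_pos.1 (by rw [hT]; norm_num)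
  choose z hz using hne
  have hfi : ∀ i, f i ≠ i := by
    intro i hi
    have := (mem_filter.1 (hTF z hz)).2 i
    rw [hi] at this
    exact hD.1 _ this
  obtain ⟨x, hx⟩ := exists_periodic f
  obtain ⟨y, hy, hyT⟩ := (all_card_le_biUnion_card_iff_exists_injective
    (fun s : Fin 60 => T (f^[s.val] x))).1 (fun s => by
      rcases s.eq_empty_or_nonempty with rfl | ⟨a, ha⟩
      · simp
      · calc s.card ≤ 60 := (card_le_univ s).trans (by simp)
          _ = (T (f^[a.val] x)).card := (hT _).symm
          _ ≤ _ := card_le_card (subset_biUnion_of_mem (fun s : Fin 60 => T (f^[s.val] x)) ha))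
  refine ⟨y, hy, ?_⟩
  rintro a b (rfl : b = a + 1)
  have hstep : f^[(a + 1).val] x = f (f^[a.val] x) := by
    rw [← Function.iterate_succ_apply' f]
    have key : ∀ a : Fin 60, (a + 1).val = a.val + 1 ∨ ((a + 1).val = 0 ∧ a.val + 1 = 60) := by
      decide
    rcases key a with h' | ⟨h1, h2⟩
    · rw [h']
    · rw [h1, Nat.succ_eq_add_one, h2, hx]; rfl
  let v : Fin 6 → V := fun i =>
    if i = f^[a.val] x then y a else if i = f (f^[a.val] x) then y (a + 1) else z i
  have hv : ∀ i, v i ∈ T i := by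
    intro i
    simp only [v]
    split_ifs with h1 h2
    · rw [h1]; exact hyT a
    · rw [h2, ← hstep]; exact hyT (a + 1)
    · exact hz i
  have := (mem_filter.1 (hTF v hv)).2 (f^[a.val] x)
  simpa only [v, if_true, if_neg (hfi _)] using this

theorem large_counterexample :
    ∃ (h : ℕ) (H : SimpleGraph (Fin h)) (H₁ H₂ : Digraph (Fin h)) (k : ℕ),
      IsOrientation H₁ H ∧ IsOrientation H₂ H ∧ 0 < threshold H₁ ∧
      threshold H₂ < threshold H₁ ∧ 2 ≤ k ∧
        profileLarge H₁ k < profileLarge H₂ k := by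
  refine ⟨60, _, C1, C2, 2, C1_orient, C2_orient, ?_, ?_, le_rfl, ?_⟩
  · refine lt_of_lt_of_le ?_ C1_threshold
    rw [EReal.coe_pos]; norm_num
  · refine C2_threshold.trans_lt (lt_of_lt_of_le ?_ C1_threshold)
    rw [EReal.coe_lt_coe_iff]; norm_num
  · refine C1_profile.trans_lt (lt_of_lt_of_le ?_ C2_profile)
    rw [EReal.coe_lt_coe_iff]; norm_num

end Pool.Agent.MP_0ac583_co
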