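import Pool.Agent.MP_0ac583_co.Basic
import Pool.Agent.MP_0ac583_co.DefsAll

/-! A counterexample for the profile taken over digraphs of every order: two orientations of
`K_{2,3}` and `k = 6`. -/

namespace Pool.Agent.MP_0ac583_co

open Finset

/-- The orientation of `K_{2,3}` with a directed four-cycle. -/
def A1 : Digraph (Fin 5) where
  Adj a b := (a, b) ∈ [((0 : Fin 5), (2 : Fin 5)), (2, 1), (0, 3), (3, 1), (1, 4), (4, 0)]

/-- The orientation of `K_{2,3}` with two sources. -/
def A2 : Digraph (Fin 5) where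
  Adj a b := (a, b) ∈ [((0 : Fin 5), (2 : Fin 5)), (0, 3), (0, 4), (1, 2), (1, 3), (1, 4)]

instance : DecidableRel A1.Adj := fun a b => by unfold A1; infer_instance
instance : DecidableRel A2.Adj := fun a b => by unfold A2; infer_instance

lemma A1_orient : IsOrientation A1 A1.toSimpleGraphInclusive := by
  unfold IsOrientation Digraph.toSimpleGraphInclusive
  simp only [SimpleGraph.fromRel_adj]
  decide

lemma A2_orient : IsOrientation A2 A1.toSimpleGraphInclusive := by
  unfold IsOrientation Digraph.toSimpleGraphInclusive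
  simp only [SimpleGraph.fromRel_adj]
  decide

lemma A1_threshold : (((1 : ℝ) / (3 : ℕ) : ℝ) : EReal) ≤ threshold A1 := by
  refine le_threshold A1 (m := 3) (L := 4) (by norm_num) (by norm_num) (by norm_num)
    (fun i => if i = 1 then 2 else if i = 2 then 1 else if i = 3 then 4 else 0) ?_ rfl
  decide

lemma contains_A2 {V : Type} [Fintype V] [DecidableEq V] {D : Digraph V} (hl : ∀ v, ¬ D.Adj v v)
    {u v : V} (huv : u ≠ v) (h : 2 < (outN D u ∩ outN D v).card) : Contains D A2 := by
  obtain ⟨x, y, z, hx, hy, hz, hxy, hxz, hyz⟩ := two_lt_card_iff.1 h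
  simp only [mem_inter, mem_outN] at hx hy hz
  have n1 : u ≠ x := fun e => hl x (e ▸ hx.1)
  have n2 : u ≠ y := fun e => hl y (e ▸ hy.1)
  have n3 : u ≠ z := fun e => hl z (e ▸ hz.1)
  have n4 : v ≠ x := fun e => hl x (e ▸ hx.2)
  have n5 : v ≠ y := fun e => hl y (e ▸ hy.2)
  have n6 : v ≠ z := fun e => hl z (e ▸ hz.2)
  refine ⟨![u, v, x, y, z], ?_, ?_⟩
  · intro i j hij
    fin_cases i <;> fin_cases j <;> simp_all [eq_comm]
  · intro a b hab
    simp only [A2, List.mem_cons, Prod.mk.injEq, List.not_mem_nil, or_false] at hab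
    rcases hab with ⟨rfl, rfl⟩ | ⟨rfl, rfl⟩ | ⟨rfl, rfl⟩ | ⟨rfl, rfl⟩ | ⟨rfl, rfl⟩ | ⟨rfl, rfl⟩
    exacts [hx.1, hy.1, hz.1, hx.2, hy.2, hz.2]

lemma A2_threshold : threshold A2 ≤ ((1 / 4 : ℝ) : EReal) := by
  unfold threshold
  refine iInf₂_le (1 / 4 : ℝ) ?_
  obtain ⟨M, n₀, h⟩ := small_family (d := 1 / 4) (by norm_num) 2
  refine ⟨max M n₀, fun V _ D hD => ?_⟩
  classical
  refine (SimpleGraph.colorable_of_fintype _).mono ?_
  by_contra hcon
  push Not at hcon
  have := h V D hD.deg (lt_of_le_of_lt (le_max_right _ _) hcon) univ fun u _ v _ huv => by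
    by_contra h2
    exact hD.2.1 (contains_A2 hD.1 huv (not_le.1 h2))
  rw [card_univ] at this
  exact absurd (this.trans_le (le_max_left M n₀)) (not_lt.2 hcon.le)

/-- A semicomplete circulant digraph on seven vertices from the `(7,4,2)` design. -/
def Q7 : Digraph (Fin 7) where
  Adj a b := b - a = 1 ∨ b - a = 2 ∨ b - a = 3 ∨ b - a = 6

instance : DecidableRel Q7.Adj := fun a b => by unfold Q7; infer_instance

lemma A2_profile : ((4 / 7 : ℝ) : EReal) ≤ profileAll A2 6 := by
  unfold profileAll
  refine le_iInf₂ fun d hd => ?_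
  rw [EReal.coe_le_coe_iff]
  by_contra hcon
  push Not at hcon
  have hadm : Admissible A2 d Q7 := by
    refine ⟨by decide, ?_, ?_⟩
    · rintro ⟨f, hf, h⟩
      have key : ∀ u v : Fin 7, u ≠ v →
          (univ.filter fun w => Q7.Adj u w ∧ Q7.Adj v w).card ≤ 2 := by decide
      have h1 := key (f 0) (f 1) (fun e => absurd (hf e) (by decide))
      refine absurd h1 (not_le.2 (two_lt_card_iff.2 ⟨f 2, f 3, f 4, ?_, ?_, ?_, ?_, ?_, ?_⟩))
      · exact mem_filter.2 ⟨mem_univ _, h _ _ (by decide), h _ _ (by decide)⟩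
      · exact mem_filter.2 ⟨mem_univ _, h _ _ (by decide), h _ _ (by decide)⟩
      · exact mem_filter.2 ⟨mem_univ _, h _ _ (by decide), h _ _ (by decide)⟩
      all_goals exact fun e => absurd (hf e) (by decide)
    · intro v
      have : {w | Q7.Adj v w}.ncard = 4 := by
        rw [← Set.ncard_coe_finset (univ.filter fun w => Q7.Adj v w) |>.symm.symm.trans
          (show (univ.filter fun w => Q7.Adj v w).card = 4 by revert v; decide)]
        congr 1; ext w; simp
      rw [this]; simp; linarith
  obtain ⟨col⟩ := hd _ _ hadm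
  have hinj : Function.Injective col := by
    intro i j hij
    by_contra hne
    have key : ∀ i j : Fin 7, i ≠ j → Q7.Adj i j ∨ Q7.Adj j i := by decide
    exact col.valid (v := i) (w := j) ⟨hne, key i j hne⟩ hij
  have := Fintype.card_le_of_injective _ hinj
  simp at this

section upper

variable {V : Type} [Fintype V] [DecidableEq V] {D : Digraph V}

open Classical in
/-- In-neighbourhood as a finset. -/
noncomputable def inN (D : Digraph V) (v : V) : Finset V := univ.filter fun w => D.Adj w v

omit [DecidableEq V] in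
@[simp] lemma mem_inN {v w : V} : w ∈ inN D v ↔ D.Adj w v := by simp [inN]

omit [DecidableEq V] in
lemma sum_inN (D : Digraph V) : ∑ v, (inN D v).card = ∑ v, (outN D v).card := by
  classical
  unfold inN outN
  simp only [card_filter]
  rw [sum_comm]

lemma contains_A1 (hl : ∀ v, ¬ D.Adj v v) {a b : V} (hab : a ≠ b)
    (h1 : 2 < (outN D a ∩ inN D b).card) (h2 : 0 < (outN D b ∩ inN D a).card) : Contains D A1 := by
  obtain ⟨y, hy⟩ := card_pos.1 h2
  have h3 : 1 < ((outN D a ∩ inN D b).erase y).card := by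
    have := pred_card_le_card_erase (s := outN D a ∩ inN D b) (a := y)
    omega
  obtain ⟨x, z, hx, hz, hxz⟩ := one_lt_card_iff.1 h3
  simp only [mem_erase, mem_inter, mem_outN, mem_inN] at hx hy hz
  have n1 : a ≠ x := fun e => hl x (e ▸ hx.2.1)
  have n2 : a ≠ y := fun e => hl y (e ▸ hy.2)
  have n3 : a ≠ z := fun e => hl z (e ▸ hz.2.1)
  have n4 : b ≠ x := fun e => hl x (e ▸ hx.2.2)
  have n5 : b ≠ y := fun e => hl y (e ▸ hy.1)
  have n6 : b ≠ z := fun e => hl z (e ▸ hz.2.2)
  have n7 := hx.1
  have n8 := hz.1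
  refine ⟨![a, b, x, z, y], ?_, ?_⟩
  · intro i j hij
    fin_cases i <;> fin_cases j <;> simp_all [eq_comm]
  · intro a b hab
    simp only [A1, List.mem_cons, Prod.mk.injEq, List.not_mem_nil, or_false] at hab
    rcases hab with ⟨rfl, rfl⟩ | ⟨rfl, rfl⟩ | ⟨rfl, rfl⟩ | ⟨rfl, rfl⟩ | ⟨rfl, rfl⟩ | ⟨rfl, rfl⟩
    exacts [hx.2.1, hx.2.2, hz.2.1, hz.2.2, hy.1, hy.2]

lemma paths_ge (D : Digraph V) (a b : V) :
    (outN D a).card + (inN D b).card ≤ (outN D a ∩ inN D b).card + Fintype.card V := by
  have := card_union_add_card_inter (outN D a) (inN D b)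
  have h2 := card_le_univ (outN D a ∪ inN D b)
  omega

lemma paths_ge' (hl : ∀ v, ¬ D.Adj v v) {a b : V} (hab : a ≠ b) (h : ¬ D.Adj a b) :
    (outN D a).card + (inN D b).card + 2 ≤ (outN D a ∩ inN D b).card + Fintype.card V := by
  have := card_union_add_card_inter (outN D a) (inN D b)
  have h2 : (outN D a ∪ inN D b) ⊆ univ \ {a, b} := by
    intro x hx
    simp only [mem_union, mem_outN, mem_inN] at hx
    simp only [mem_sdiff, mem_univ, mem_insert, mem_singleton, true_and, not_or]
    constructor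
    · rintro rfl; exact hx.elim (hl _) h
    · rintro rfl; exact hx.elim h (hl _)
  have h3 := card_le_card h2
  rw [card_sdiff_of_subset (subset_univ _), card_pair hab, card_univ] at h3
  have h4 : 2 ≤ Fintype.card V := by rw [← card_pair hab]; exact card_le_univ _
  omega

omit [DecidableEq V] in
lemma inN_card_lt (hl : ∀ v, ¬ D.Adj v v) (v : V) : (inN D v).card < Fintype.card V :=
  card_lt_card (ssubset_univ_iff.2 fun e => hl v (mem_inN.1 (e ▸ mem_univ v)))

omit [DecidableEq V] in
/-- Bound on the sum of in-degrees from the number of vertices of large in-degree. -/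
lemma sum_in_le (D : Digraph V) (r M : ℕ) (hM : ∀ v, (inN D v).card ≤ M) (hr : r ≤ M) :
    ∑ v, (inN D v).card ≤ Fintype.card V * r +
      (univ.filter fun v => r < (inN D v).card).card * (M - r) := by
  rw [card_filter, sum_mul, ← card_univ, card_eq_sum_ones, sum_mul, ← sum_add_distrib]
  refine sum_le_sum fun v _ => ?_
  have := hM v
  split_ifs <;> omega

lemma exists_big (hl : ∀ v, ¬ D.Adj v v) {r : ℕ} (hr : ∀ v, r + 1 ≤ (outN D v).card) (hr0 : 0 < r)
    (b : V) : ∃ a, a ≠ b ∧ r + 1 ≤ (inN D a).card := by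
  by_contra hcon
  push Not at hcon
  have hb := hr b
  have hb2 := card_le_univ (outN D b)
  have h1 := sum_in_le D r (Fintype.card V - 1) (fun v => by have := inN_card_lt hl v; omega)
    (by omega)
  have h2 : (univ.filter fun v => r < (inN D v).card).card ≤ 1 := by
    rw [← card_singleton b]
    refine card_le_card fun v hv => ?_
    by_contra hne
    have := hcon v (by simpa using hne)
    have := (mem_filter.1 hv).2
    omega
  have h3 : Fintype.card V * (r + 1) ≤ ∑ v, (outN D v).card := by
    rw [← card_univ, ← smul_eq_mul]; exact card_nsmul_le_sum _ _ _ fun v _ => hr v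
  rw [sum_inN] at h1
  have h4 := Nat.mul_le_mul_right (Fintype.card V - 1 - r) h2
  rw [mul_add] at h3
  omega

lemma contains_A1_large (hl : ∀ v, ¬ D.Adj v v) {r : ℕ} (hr : ∀ v, r + 1 ≤ (outN D v).card)
    (h1 : Fintype.card V ≤ 2 * r) (h2 : r + 3 ≤ Fintype.card V) : Contains D A1 := by
  have hne : Nonempty V := Fintype.card_pos_iff.1 (by omega)
  by_cases hb : ∃ b, r + 2 ≤ (inN D b).card
  · obtain ⟨b, hb⟩ := hb
    obtain ⟨a, hab, ha⟩ := exists_big hl hr (by omega) b
    have p1 := paths_ge D a b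
    have p2 := paths_ge D b a
    have := hr a
    have := hr b
    exact contains_A1 hl hab (by omega) (by omega)
  · push Not at hb
    have hall : ∀ v, r + 1 ≤ (inN D v).card := by
      by_contra hcon
      push Not at hcon
      obtain ⟨v, hv⟩ := hcon
      have h3 : ∑ v, (inN D v).card < ∑ _v : V, (r + 1) :=
        sum_lt_sum (fun i _ => by have := hb i; omega) ⟨v, mem_univ _, hv⟩
      have h4 : ∑ _v : V, (r + 1) ≤ ∑ v, (outN D v).card := sum_le_sum fun v _ => hr v
      rw [sum_inN] at h3
      omega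
    obtain ⟨b⟩ := hne
    have : (insert b (inN D b)).card < (univ : Finset V).card := by
      have := card_insert_le b (inN D b)
      have := hb b
      rw [card_univ]; omega
    obtain ⟨a, -, ha⟩ := exists_mem_notMem_of_card_lt_card this
    simp only [mem_insert, mem_inN, not_or] at ha
    have p1 := paths_ge' hl ha.1 ha.2
    have p2 := paths_ge D b a
    have := hr a
    have := hr b
    have := hall a
    have := hall b
    exact contains_A1 hl ha.1 (by omega) (by omega)

lemma contains_A1_seven (hl : ∀ v, ¬ D.Adj v v) (hr : ∀ v, 3 + 1 ≤ (outN D v).card)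
    (hn : Fintype.card V = 7) : Contains D A1 := by
  by_cases hb : ∃ b, 6 ≤ (inN D b).card
  · obtain ⟨b, hb⟩ := hb
    obtain ⟨a, hab, ha⟩ := exists_big hl hr (by omega) b
    have p1 := paths_ge D a b
    have p2 := paths_ge D b a
    have := hr a
    have := hr b
    exact contains_A1 hl hab (by omega) (by omega)
  push Not at hb
  by_cases hc : ∃ a b, a ≠ b ∧ 3 < (inN D a).card ∧ 3 < (inN D b).card ∧ ¬ D.Adj a b
  · obtain ⟨a, b, hab, ha, hb, h⟩ := hc
    have p1 := paths_ge' hl hab h
    have p2 := paths_ge D b a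
    have := hr a
    have := hr b
    exact contains_A1 hl hab (by omega) (by omega)
  push Not at hc
  have h1 := sum_in_le D 3 5 (fun v => by have := hb v; omega) (by omega)
  have h3 : Fintype.card V * (3 + 1) ≤ ∑ v, (outN D v).card := by
    rw [← card_univ, ← smul_eq_mul]; exact card_nsmul_le_sum _ _ _ fun v _ => hr v
  rw [sum_inN] at h1
  obtain ⟨B, hB, hBc⟩ := exists_subset_card_eq
    (s := univ.filter fun v => 3 < (inN D v).card) (n := 4) (by omega)
  have hadj : ∀ a ∈ B, ∀ b ∈ B, a ≠ b → D.Adj a b := fun a ha b hb hab =>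
    hc a b hab (mem_filter.1 (hB ha)).2 (mem_filter.1 (hB hb)).2
  obtain ⟨a, ha⟩ := card_pos.1 (show 0 < B.card by omega)
  obtain ⟨x, hx1, hx2⟩ := exists_mem_notMem_of_card_lt_card (s := B.erase a) (t := outN D a)
    (by rw [card_erase_of_mem ha]; have := hr a; omega)
  have hxa : x ≠ a := fun e => hl a (by rw [e] at hx1; exact mem_outN.1 hx1)
  have hxB : x ∉ B := fun h => hx2 (mem_erase.2 ⟨hxa, h⟩)
  obtain ⟨b, hb1, hb2⟩ := exists_mem_notMem_of_card_lt_card
    (s := insert a ((univ \ B).erase x)) (t := outN D x) (by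
      have := card_insert_le a ((univ \ B).erase x)
      rw [card_erase_of_mem (by simpa using hxB), card_sdiff_of_subset (subset_univ _),
        card_univ] at this
      have := hr x; omega)
  have hbx : b ≠ x := fun e => hl x (by rw [e] at hb1; exact mem_outN.1 hb1)
  simp only [mem_insert, mem_erase, mem_sdiff, mem_univ, true_and, not_or, not_and,
    not_not] at hb2
  have hbB := hb2.2 hbx
  have hab : a ≠ b := fun e => hb2.1 e.symm
  have hc2 : ((B.erase a).erase b).card = 2 := by
    rw [card_erase_of_mem (mem_erase.2 ⟨hab.symm, hbB⟩), card_erase_of_mem ha, hBc]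
  refine contains_A1 hl hab ?_ ?_
  · have : insert x ((B.erase a).erase b) ⊆ outN D a ∩ inN D b := by
      intro y hy
      simp only [mem_insert, mem_erase] at hy
      simp only [mem_inter, mem_outN, mem_inN]
      rcases hy with rfl | ⟨h1, h2, h3⟩
      · exact ⟨mem_outN.1 hx1, mem_outN.1 hb1⟩
      · exact ⟨hadj _ ha _ h3 (Ne.symm h2), hadj _ h3 _ hbB h1⟩
    have h5 := card_le_card this
    rw [card_insert_of_notMem (fun h => hxB (mem_of_mem_erase (mem_of_mem_erase h))), hc2] at h5
    omega
  · have : (B.erase a).erase b ⊆ outN D b ∩ inN D a := by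
      intro y hy
      simp only [mem_erase] at hy
      simp only [mem_inter, mem_outN, mem_inN]
      exact ⟨hadj _ hbB _ hy.2.2 (Ne.symm hy.1), hadj _ hy.2.2 _ ha hy.2.1⟩
    have h5 := card_le_card this
    omega

end upper

lemma A1_profile : profileAll A1 6 ≤ ((14 / 25 : ℝ) : EReal) := by
  unfold profileAll
  refine iInf₂_le (14 / 25 : ℝ) ?_
  intro V _ D hD
  classical
  refine (SimpleGraph.colorable_of_fintype _).mono ?_
  by_contra hcon
  push Not at hcon
  have hdeg : ∀ v, 14 * Fintype.card V ≤ 25 * (outN D v).card := by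
    intro v
    have := hD.deg v
    have : (14 : ℝ) * Fintype.card V ≤ 25 * (outN D v).card := by linarith
    exact_mod_cast this
  apply hD.2.1
  rcases Nat.lt_or_ge 7 (Fintype.card V) with h | h
  · refine contains_A1_large hD.1 (r := (Fintype.card V + 1) / 2) (fun v => ?_) (by omega) (by omega)
    have := hdeg v
    omega
  · refine contains_A1_seven hD.1 (fun v => ?_) (by omega)
    have := hdeg v
    omega

theorem literal_counterexample :
    ∃ (h : ℕ) (H : SimpleGraph (Fin h)) (H₁ H₂ : Digraph (Fin h)) (k : ℕ),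
      IsOrientation H₁ H ∧ IsOrientation H₂ H ∧ 0 < threshold H₁ ∧
      threshold H₂ < threshold H₁ ∧ 2 ≤ k ∧
        profileAll H₁ k < profileAll H₂ k := by
  refine ⟨5, _, A1, A2, 6, A1_orient, A2_orient, ?_, ?_, by norm_num, ?_⟩
  · refine lt_of_lt_of_le ?_ A1_threshold
    rw [EReal.coe_pos]; norm_num
  · refine A2_threshold.trans_lt (lt_of_lt_of_le ?_ A1_threshold)
    rw [EReal.coe_lt_coe_iff]; norm_num
  · refine A1_profile.trans_lt (lt_of_lt_of_le ?_ A2_profile)
    rw [EReal.coe_lt_coe_iff]; norm_num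

end Pool.Agent.MP_0ac583_co
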